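import Pool.Agent.H23.CMC.Targets
import Pool.Agent.H61.FM.SUP

/-!
# MP_52e316_nt, board `cm4_modules`: row G_FM1, the fourth moment for a fixed weight and conductors in
`[X / 4, X]`
-/

set_option autoImplicit false

open NumberField MeasureTheory Set Filter Complex
open scoped nonZeroDivisors Real

namespace Pool.Agent.H90.CMC

open Pool.Agent.H23.CMC
open Pool.Agent.H65.CM4 (Sq nm dg Pl rv)
open Pool.Agent.H65.CMC (Emb ty PrTo IsHk ms IsLk gg GM cG Km Idx cdc Fmc lc)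
open Pool.Agent.H23.CM4 (nJ Jd Nr wB)
open Pool.Agent.H23.LC (HG ag)
open Pool.Agent.H61.FM (T_SUP pf_SUP)

/-- the strip -/
def FM1St (κ : ℝ) : Set (ℝ × ℝ) := Icc (1 / 2 - κ) (1 / 2 + κ) ×ˢ (univ : Set ℝ)

lemma FM1_meas_St (κ : ℝ) : MeasurableSet (FM1St κ) := measurableSet_Icc.prod MeasurableSet.univ

lemma FM1_int_g (κ : ℝ) : IntegrableOn (fun p : ℝ × ℝ => (1 + p.2 ^ 2)⁻¹) (FM1St κ) := by
  have h1 : IntegrableOn (fun _ : ℝ => (1 : ℝ)) (Icc (1 / 2 - κ) (1 / 2 + κ)) :=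
    integrableOn_const (by
      rw [Real.volume_Icc]
      exact ENNReal.ofReal_ne_top)
  have h2 : IntegrableOn (fun y : ℝ => (1 + y ^ 2)⁻¹) (univ : Set ℝ) :=
    integrable_inv_one_add_sq.integrableOn
  have h3 := Integrable.mul_prod h1 h2
  rw [Measure.prod_restrict] at h3
  simp only [one_mul] at h3
  exact h3

lemma FM1_wt_le (y μ : ℝ) (hμ : 0 ≤ μ) (a b : ℕ) (h : a + 2 ≤ b) :
    (1 + |y| + μ) ^ a / (1 + |y| + μ) ^ b ≤ (1 + y ^ 2)⁻¹ := by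
  have hy : 0 ≤ |y| := abs_nonneg y
  have h1 : (1 : ℝ) ≤ 1 + |y| + μ := by linarith
  have h0 : (0 : ℝ) < 1 + |y| + μ := by linarith
  have h2 : (1 + |y| + μ) ^ a * (1 + y ^ 2) ≤ (1 + |y| + μ) ^ b := by
    calc (1 + |y| + μ) ^ a * (1 + y ^ 2) ≤ (1 + |y| + μ) ^ a * (1 + |y| + μ) ^ 2 := by
          apply mul_le_mul_of_nonneg_left _ (by positivity)
          have h3 : y ^ 2 = |y| ^ 2 := (sq_abs y).symm
          rw [h3]
          nlinarith [mul_nonneg hy hμ]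
      _ = (1 + |y| + μ) ^ (a + 2) := by rw [pow_add]
      _ ≤ (1 + |y| + μ) ^ b := pow_le_pow_right₀ h1 h
  rw [div_le_iff₀ (by positivity), inv_mul_eq_div, le_div_iff₀ (by positivity)]
  exact h2

theorem pf_FM1 (hFMS : T_FMSc) (hTRB : T_TRBc) (hUNI : T_UNI) (hFX : T_FXc) (hDCX : T_DCX) :
    T_FM1c := by
  intro k _ _ _ ε hε
  obtain ⟨κ, hκ, hκ8, C1, k1, hC1, hF⟩ := hFMS k ε hε
  obtain ⟨C2, hC2, hS2⟩ := pf_SUP κ hκ
  obtain ⟨C3, k3, hC3, hB⟩ := hTRB k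
  obtain ⟨A, hA⟩ : ∃ A : ℕ, A = k1 + k3 + 1 := ⟨_, rfl⟩
  obtain ⟨I0, hI0⟩ : ∃ I0 : ℝ, I0 = ∫ p in FM1St κ, (1 + p.2 ^ 2)⁻¹ := ⟨_, rfl⟩
  have hI0n : 0 ≤ I0 := by
    rw [hI0]
    exact setIntegral_nonneg (FM1_meas_St κ) fun p _ => by positivity
  refine ⟨C2 * 2 ^ (4 * A) * (C1 * I0) + 1, A, by positivity, ?_⟩
  intro X ι K _ _ _ Φ S f m F t hX hS
  have hmem := (hFX k ι K Φ S f (fun _ => m) F (X / 4) X hS).1
  obtain ⟨μ, hμe⟩ : ∃ μ : ℝ, μ = ms m := ⟨_, rfl⟩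
  have hμ : 0 ≤ μ := by
    rw [hμe]
    exact Finset.sum_nonneg fun v _ => abs_nonneg _
  rw [← hμe]
  -- points of the strip
  have hre : ∀ p : ℝ × ℝ, ((p.1 : ℂ) + (p.2 : ℂ) * Complex.I).re = p.1 := by
    intro p
    simp
  have him : ∀ p : ℝ × ℝ, ((p.1 : ℂ) + (p.2 : ℂ) * Complex.I).im = p.2 := by
    intro p
    simp
  have hTc : ∀ p : ℝ × ℝ, Tc m ((p.1 : ℂ) + (p.2 : ℂ) * Complex.I) = 1 + |p.2| + μ := by
    intro p
    unfold Tc
    rw [him, hμe]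
  have hSt : ∀ p ∈ FM1St κ, |((p.1 : ℂ) + (p.2 : ℂ) * Complex.I).re - 1 / 2| ≤ κ := by
    intro p hp
    have h1 := hp.1
    rw [hre, abs_le]
    constructor
    · linarith [h1.1]
    · linarith [h1.2]
  -- the integrands
  obtain ⟨h, hh⟩ : ∃ h : Idx K → ℝ × ℝ → ℝ, h = fun x p =>
      ‖F x ((p.1 : ℂ) + (p.2 : ℂ) * Complex.I)‖ ^ 4 / (1 + |p.2| + μ) ^ (4 * A) := ⟨_, rfl⟩
  have hhn : ∀ x p, 0 ≤ h x p := by
    intro x p
    rw [hh]
    positivity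
  have hcont : Continuous (fun p : ℝ × ℝ => (p.1 : ℂ) + (p.2 : ℂ) * Complex.I) := by
    fun_prop
  have hint : ∀ x ∈ S, IntegrableOn (h x) (FM1St κ) := by
    intro x hx
    have hL := hS.lf x hx
    have hFc : ContinuousOn (F x) {1}ᶜ := hL.1.continuousOn
    have hmaps : MapsTo (fun p : ℝ × ℝ => (p.1 : ℂ) + (p.2 : ℂ) * Complex.I) (FM1St κ) {1}ᶜ := by
      intro p hp hcon
      have h1 : (p.1 : ℂ) + (p.2 : ℂ) * Complex.I = 1 := hcon
      have h2 := hSt p hp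
      rw [h1, Complex.one_re, abs_le] at h2
      linarith [h2.2]
    have hhc : ContinuousOn (h x) (FM1St κ) := by
      rw [hh]
      refine ContinuousOn.div ((hFc.comp hcont.continuousOn hmaps).norm.pow 4) ?_ ?_
      · fun_prop
      · intro p _
        positivity
    have hg := (FM1_int_g κ).const_mul ((C3 * dC (K x.1) (f x) ^ 2) ^ 4)
    refine Integrable.mono' hg (hhc.aestronglyMeasurable (FM1_meas_St κ)) ?_
    refine (ae_restrict_iff' (FM1_meas_St κ)).2 (Eventually.of_forall fun p hp => ?_)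
    rw [Real.norm_eq_abs, abs_of_nonneg (hhn x p), hh]
    have h2 := hB (K x.1) (Φ x.1) (f x) m x.2 (F x) (hmem x hx).1 hL
      ((p.1 : ℂ) + (p.2 : ℂ) * Complex.I) ((hSt p hp).trans hκ8)
    rw [hTc] at h2
    have h3 : ‖F x ((p.1 : ℂ) + (p.2 : ℂ) * Complex.I)‖ ^ 4 ≤
        (C3 * dC (K x.1) (f x) ^ 2) ^ 4 * (1 + |p.2| + μ) ^ (4 * k3) := by
      refine (pow_le_pow_left₀ (norm_nonneg _) h2 4).trans (le_of_eq ?_)
      rw [mul_comm 4 k3, pow_mul]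
      ring
    calc ‖F x ((p.1 : ℂ) + (p.2 : ℂ) * Complex.I)‖ ^ 4 / (1 + |p.2| + μ) ^ (4 * A) ≤
        (C3 * dC (K x.1) (f x) ^ 2) ^ 4 * (1 + |p.2| + μ) ^ (4 * k3) /
          (1 + |p.2| + μ) ^ (4 * A) := div_le_div_of_nonneg_right h3 (by positivity)
      _ = (C3 * dC (K x.1) (f x) ^ 2) ^ 4 *
          ((1 + |p.2| + μ) ^ (4 * k3) / (1 + |p.2| + μ) ^ (4 * A)) := by ring
      _ ≤ (C3 * dC (K x.1) (f x) ^ 2) ^ 4 * (1 + p.2 ^ 2)⁻¹ :=
          mul_le_mul_of_nonneg_left (FM1_wt_le p.2 μ hμ (4 * k3) (4 * A) (by omega))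
            (by positivity)
  -- each term
  have hterm : ∀ x ∈ S,
      (‖F x (1 / 2 + t x * Complex.I)‖ / (1 + |t x| + μ) ^ A) ^ 4 ≤
        C2 * 2 ^ (4 * A) * ∫ p in FM1St κ, h x p := by
    intro x hx
    have hL := hS.lf x hx
    obtain ⟨τ, hτ⟩ : ∃ τ : ℝ, τ = t x := ⟨_, rfl⟩
    rw [← hτ]
    have hd : DifferentiableOn ℂ (F x) {s : ℂ | |s.re - 1 / 2| < 2 * κ} := by
      refine hL.1.mono fun s hs hcon => ?_
      have h1 : s = 1 := hcon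
      have h2 : |s.re - 1 / 2| < 2 * κ := hs
      rw [h1, Complex.one_re] at h2
      have h3 := (abs_lt.1 h2).2
      linarith
    have h1 := hS2 (F x) τ hd
    have hτ0 : (0 : ℝ) < 1 + |τ| + μ := by positivity
    have hbox : Icc (1 / 2 - κ) (1 / 2 + κ) ×ˢ Icc (τ - κ) (τ + κ) ⊆ FM1St κ :=
      prod_mono (Subset.refl _) (subset_univ _)
    have hmb : MeasurableSet (Icc (1 / 2 - κ) (1 / 2 + κ) ×ˢ Icc (τ - κ) (τ + κ)) :=
      measurableSet_Icc.prod measurableSet_Icc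
    have hib : IntegrableOn (h x) (Icc (1 / 2 - κ) (1 / 2 + κ) ×ˢ Icc (τ - κ) (τ + κ)) :=
      (hint x hx).mono_set hbox
    have h2 : ∫ p in Icc (1 / 2 - κ) (1 / 2 + κ) ×ˢ Icc (τ - κ) (τ + κ),
        ‖F x ((p.1 : ℂ) + (p.2 : ℂ) * Complex.I)‖ ^ 4 ≤
        ∫ p in Icc (1 / 2 - κ) (1 / 2 + κ) ×ˢ Icc (τ - κ) (τ + κ),
          (2 * (1 + |τ| + μ)) ^ (4 * A) * h x p := by
      refine integral_mono_of_nonneg (Eventually.of_forall fun p => by positivity)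
        (hib.const_mul _) ?_
      refine (ae_restrict_iff' hmb).2 (Eventually.of_forall fun p hp => ?_)
      have hp2 := hp.2
      have h3 : 1 + |p.2| + μ ≤ 2 * (1 + |τ| + μ) := by
        have h4 : |p.2 - τ| ≤ κ := by
          rw [abs_le]
          constructor
          · linarith [hp2.1]
          · linarith [hp2.2]
        have h5 : |p.2| ≤ |p.2 - τ| + |τ| := by
          have h6 := abs_add_le (p.2 - τ) τ
          rwa [sub_add_cancel] at h6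
        have h7 := abs_nonneg τ
        linarith
      have h4 : (1 + |p.2| + μ) ^ (4 * A) ≤ (2 * (1 + |τ| + μ)) ^ (4 * A) :=
        pow_le_pow_left₀ (by positivity) h3 _
      change ‖F x ((p.1 : ℂ) + (p.2 : ℂ) * Complex.I)‖ ^ 4 ≤
        (2 * (1 + |τ| + μ)) ^ (4 * A) * h x p
      rw [hh]
      change ‖F x ((p.1 : ℂ) + (p.2 : ℂ) * Complex.I)‖ ^ 4 ≤ (2 * (1 + |τ| + μ)) ^ (4 * A) *
        (‖F x ((p.1 : ℂ) + (p.2 : ℂ) * Complex.I)‖ ^ 4 / (1 + |p.2| + μ) ^ (4 * A))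
      rw [mul_div_assoc', le_div_iff₀ (by positivity), mul_comm]
      exact mul_le_mul_of_nonneg_right h4 (by positivity)
    have h3 : ∫ p in Icc (1 / 2 - κ) (1 / 2 + κ) ×ˢ Icc (τ - κ) (τ + κ),
        (2 * (1 + |τ| + μ)) ^ (4 * A) * h x p ≤
          (2 * (1 + |τ| + μ)) ^ (4 * A) * ∫ p in FM1St κ, h x p := by
      rw [integral_const_mul]
      refine mul_le_mul_of_nonneg_left ?_ (by positivity)
      exact setIntegral_mono_set (hint x hx) (Eventually.of_forall fun p => hhn x p)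
        (Eventually.of_forall fun p hp => hbox hp)
    have h4 : ‖F x (1 / 2 + τ * Complex.I)‖ ^ 4 ≤
        C2 * ((2 * (1 + |τ| + μ)) ^ (4 * A) * ∫ p in FM1St κ, h x p) :=
      h1.trans (mul_le_mul_of_nonneg_left (h2.trans h3) hC2.le)
    rw [div_pow, ← pow_mul, div_le_iff₀ (by positivity)]
    refine h4.trans (le_of_eq ?_)
    rw [mul_pow, mul_comm A 4]
    ring
  -- the sum
  have hsum1 : ∑ x ∈ S,
      (‖F x (1 / 2 + t x * Complex.I)‖ / (1 + |t x| + μ) ^ A) ^ 4 ≤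
      C2 * 2 ^ (4 * A) * ∑ x ∈ S, ∫ p in FM1St κ, h x p := by
    rw [Finset.mul_sum]
    exact Finset.sum_le_sum fun x hx => hterm x hx
  have hsum2 : ∑ x ∈ S, ∫ p in FM1St κ, h x p = ∫ p in FM1St κ, ∑ x ∈ S, h x p := by
    rw [integral_finsetSum _ (fun x hx => hint x hx)]
  have hsum3 : ∫ p in FM1St κ, ∑ x ∈ S, h x p ≤
      ∫ p in FM1St κ, C1 * X ^ (3 / 2 + ε) * (1 + p.2 ^ 2)⁻¹ := by
    refine setIntegral_mono_on
      (integrable_finsetSum _ fun x hx => hint x hx)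
      ((FM1_int_g κ).const_mul _) (FM1_meas_St κ) ?_
    intro p hp
    have h1 := hF ((p.1 : ℂ) + (p.2 : ℂ) * Complex.I) X ι K Φ S f m F (hSt p hp) hX hS
    rw [hTc] at h1
    have h2 : ∑ x ∈ S, h x p =
        (∑ x ∈ S, ‖F x ((p.1 : ℂ) + (p.2 : ℂ) * Complex.I)‖ ^ 4) /
          (1 + |p.2| + μ) ^ (4 * A) := by
      rw [Finset.sum_div, hh]
    rw [h2]
    have hXp : 0 ≤ C1 * X ^ (3 / 2 + ε) :=
      mul_nonneg hC1.le (Real.rpow_nonneg (by linarith) _)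
    calc (∑ x ∈ S, ‖F x ((p.1 : ℂ) + (p.2 : ℂ) * Complex.I)‖ ^ 4) /
          (1 + |p.2| + μ) ^ (4 * A) ≤
          C1 * (1 + |p.2| + μ) ^ k1 * X ^ (3 / 2 + ε) / (1 + |p.2| + μ) ^ (4 * A) :=
          div_le_div_of_nonneg_right h1 (by positivity)
      _ = C1 * X ^ (3 / 2 + ε) * ((1 + |p.2| + μ) ^ k1 / (1 + |p.2| + μ) ^ (4 * A)) := by ring
      _ ≤ C1 * X ^ (3 / 2 + ε) * (1 + p.2 ^ 2)⁻¹ :=
          mul_le_mul_of_nonneg_left (FM1_wt_le p.2 μ hμ k1 (4 * A) (by omega)) hXp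
  have hsum4 : ∫ p in FM1St κ, C1 * X ^ (3 / 2 + ε) * (1 + p.2 ^ 2)⁻¹ =
      C1 * X ^ (3 / 2 + ε) * I0 := by
    rw [integral_const_mul, hI0]
  have hfin := hsum1.trans (mul_le_mul_of_nonneg_left
    ((hsum2.le.trans hsum3).trans hsum4.le) (by positivity : (0 : ℝ) ≤ C2 * 2 ^ (4 * A)))
  refine hfin.trans ?_
  have hXp : 0 ≤ X ^ (3 / 2 + ε) := Real.rpow_nonneg (by linarith) _
  nlinarith

end Pool.Agent.H90.CMC
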