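import Pool.Agent.H23.CMC.Targets
import Pool.Agent.H30.CM4.FMS

/-!
# MP_52e316_nt, board `cm4_modules`: row G_FMS, the fourth moment at a point near the critical line,
for the complete family
-/

set_option autoImplicit false

open NumberField MeasureTheory Set Filter Complex
open scoped nonZeroDivisors Real

namespace Pool.Agent.H90.CMC

open Pool.Agent.H23.CMC
open Pool.Agent.H65.CM4 (Sq nm dg Pl rv)
open Pool.Agent.H65.CMC (Emb ty PrTo IsHk ms IsLk gg GM cG Km Idx cdc Fmc lc)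
open Pool.Agent.H23.CM4 (nJ Jd Nr wB)
open Pool.Agent.H23.LC (HG ag)
open Pool.Agent.H30.CM4 (FMS_sqle FMS_sq FMS_fg FMS_wpos FMS_wmono FMS_wprod)

theorem pf_FMS (hMOT : T_MOTc) (hPBD : T_PBDc) (hSPT : T_SPTc) (hFX : T_FXc) (hDCX : T_DCX) :
    T_FMSc := by
  intro k _ _ _ ε hε
  obtain ⟨ε1, hε1⟩ : ∃ ε1, ε1 = min (ε / 8) 1 := ⟨_, rfl⟩
  have hε1p : 0 < ε1 := by rw [hε1]; exact lt_min (by positivity) one_pos
  have hε1e : ε1 ≤ ε / 8 := by rw [hε1]; exact min_le_left _ _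
  have hε1o : ε1 ≤ 1 := by rw [hε1]; exact min_le_right _ _
  obtain ⟨κ0, hκ0, hκ8, B, C2, k2, hC2, hM⟩ := hMOT k ε1 hε1p
  obtain ⟨κ, hκ⟩ : ∃ κ, κ = min κ0 (ε1 / 4) := ⟨_, rfl⟩
  have hκpos : 0 < κ := by rw [hκ]; exact lt_min hκ0 (by positivity)
  have hκκ : κ ≤ κ0 := by rw [hκ]; exact min_le_left _ _
  have hκε : κ ≤ ε1 / 4 := by rw [hκ]; exact min_le_right _ _
  have hκle : κ ≤ 1 / 8 := hκκ.trans hκ8
  obtain ⟨C1, k1, hC1, hP⟩ := hPBD k B κ hκpos hκle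
  obtain ⟨C0, hC0, hS⟩ := hSPT (2 * dg k)
  refine ⟨κ, hκpos, hκle, C1 ^ 2 * (1 / (2 * ε1)) * C2 * (1 / ε1), 2 * k1 + k2, by positivity, ?_⟩
  intro s X ι K _ _ _ Φ S f m F hs hX hF
  have hmem := (hFX k ι K Φ S f (fun _ => m) F (X / 4) X hF).1
  obtain ⟨T, hT⟩ : ∃ T, T = Tc m s := ⟨_, rfl⟩
  have hT1 : 1 ≤ T := by
    have h1 : 0 ≤ ms m := Finset.sum_nonneg fun v _ => abs_nonneg _
    rw [hT]
    unfold Tc
    linarith [abs_nonneg s.im]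
  have hT0 : 0 < T := by linarith
  have hX0 : 0 < X := by linarith
  rw [← hT]
  have hM3 : ∀ x : ℝ, 1 ≤ x → (∑ p ∈ S, ‖Sc (cf p.2) x‖ ^ 2 * ‖F p s‖ ^ 2) *
      wB B X x ≤ C2 * T ^ k2 * X ^ (3 / 2 + ε1) * x ^ (1 + ε1) := by
    intro x hx
    rw [hT]
    exact hM s X x ι K Φ S f m F (hs.trans hκκ) hX hx hF
  have hsp : ∀ p ∈ S, Measurable (Sc (cf p.2)) ∧ ∀ x : ℝ, 1 ≤ x →
      ‖Sc (cf p.2) x‖ ≤ C0 * x ^ 2 := by
    intro p hp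
    obtain ⟨h1, h2, h3, h4, h5, h6, h7⟩ := hmem p hp
    have h8 := hS (K p.1) (hDCX k (K p.1) h1.rk).2.1 (cf p.2) (fun J => h7 _)
    exact ⟨h8.1, h8.2.2⟩
  have hint : ∀ p ∈ S, IntegrableOn (fun x : ℝ =>
      ‖Sc (cf p.2) x‖ ^ 2 * ‖F p s‖ ^ 2 * (x ^ (-2 : ℝ) * wB (B + 4) X x)) (Ioi 1) := by
    intro p hp
    obtain ⟨h1, h2⟩ := hsp p hp
    have h3 : IntegrableOn (fun x : ℝ => ‖F p s‖ ^ 2 * (‖Sc (cf p.2) x‖ ^ 2 *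
        (x ^ (-2 : ℝ) * wB (B + 4) X x))) (Ioi 1) :=
      (FMS_sq h1 h2 hX).const_mul _
    refine h3.congr_fun ?_ measurableSet_Ioi
    intro x _
    show ‖F p s‖ ^ 2 * (‖Sc (cf p.2) x‖ ^ 2 * (x ^ (-2 : ℝ) * wB (B + 4) X x)) =
      ‖Sc (cf p.2) x‖ ^ 2 * ‖F p s‖ ^ 2 * (x ^ (-2 : ℝ) * wB (B + 4) X x)
    ring
  have hfour : ∀ p ∈ S, ‖F p s‖ ^ 4 ≤
      C1 ^ 2 * T ^ (2 * k1) * X ^ (4 * κ) * (X ^ ε1 * (1 / (2 * ε1))) * ∫ x in Ioi (1 : ℝ),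
        ‖Sc (cf p.2) x‖ ^ 2 * ‖F p s‖ ^ 2 * (x ^ (-2 : ℝ) * wB (B + 4) X x) := by
    intro p hp
    obtain ⟨h1, h2⟩ := hsp p hp
    obtain ⟨g1, g2, g3, g4, g5, g6, g7⟩ := hmem p hp
    obtain ⟨hi', hb⟩ := hP (K p.1) (Φ p.1) (f p) m p.2 (F p) g1 (hF.lf p hp) s hs
    rw [← hT] at hb
    have hD1 : 1 ≤ dC (K p.1) (f p) := by rw [← g3]; exact g4
    have hD0 : 0 < dC (K p.1) (f p) := by linarith
    have hDX : dC (K p.1) (f p) ≤ X := by rw [← g3]; exact g5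
    have h3 := FMS_sqle (B := B) h1 h2 hX hε1p hε1o
    have e1 : ∫ x in Ioi (1 : ℝ), ‖Sc (cf p.2) x‖ ^ 2 * ‖F p s‖ ^ 2 *
        (x ^ (-2 : ℝ) * wB (B + 4) X x) = ‖F p s‖ ^ 2 *
        ∫ x in Ioi (1 : ℝ), ‖Sc (cf p.2) x‖ ^ 2 * (x ^ (-2 : ℝ) * wB (B + 4) X x) := by
      rw [← integral_const_mul]
      refine integral_congr_ae (Eventually.of_forall fun x => ?_)
      show ‖Sc (cf p.2) x‖ ^ 2 * ‖F p s‖ ^ 2 * (x ^ (-2 : ℝ) * wB (B + 4) X x) = ‖F p s‖ ^ 2 *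
        (‖Sc (cf p.2) x‖ ^ 2 * (x ^ (-2 : ℝ) * wB (B + 4) X x))
      ring
    rw [e1]
    have hmono : ∫ x in Ioi (1 : ℝ), ‖Sc (cf p.2) x‖ * x ^ (-(3 / 2) : ℝ) *
        wB (B + 4) (dC (K p.1) (f p)) x ≤
        ∫ x in Ioi (1 : ℝ), ‖Sc (cf p.2) x‖ * x ^ (-(3 / 2) : ℝ) * wB (B + 4) X x := by
      refine setIntegral_mono_on hi' (FMS_fg h1 h2 hX) measurableSet_Ioi fun x hx => ?_
      have hx0 : (0 : ℝ) < x := lt_trans zero_lt_one hx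
      exact mul_le_mul_of_nonneg_left (FMS_wmono hD0 hDX hx0)
        (mul_nonneg (norm_nonneg _) (Real.rpow_nonneg hx0.le _))
    have hIn : 0 ≤ ∫ x in Ioi (1 : ℝ), ‖Sc (cf p.2) x‖ * x ^ (-(3 / 2) : ℝ) *
        wB (B + 4) (dC (K p.1) (f p)) x := by
      refine setIntegral_nonneg measurableSet_Ioi fun x hx => ?_
      have hx0 : (0 : ℝ) < x := lt_trans zero_lt_one hx
      exact mul_nonneg (mul_nonneg (norm_nonneg _) (Real.rpow_nonneg hx0.le _))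
        (FMS_wpos hx0).le
    set J := ∫ x in Ioi (1 : ℝ), ‖Sc (cf p.2) x‖ ^ 2 * (x ^ (-2 : ℝ) * wB (B + 4) X x) with hJ
    set I₁ := ∫ x in Ioi (1 : ℝ), ‖Sc (cf p.2) x‖ * x ^ (-(3 / 2) : ℝ) * wB (B + 4) X x with hI
    have hX2 : dC (K p.1) (f p) ^ (2 * κ) ≤ X ^ (2 * κ) :=
      Real.rpow_le_rpow hD0.le hDX (by positivity)
    have hb' : ‖F p s‖ ≤ C1 * T ^ k1 * X ^ (2 * κ) * I₁ := by
      refine hb.trans ?_
      refine mul_le_mul ?_ hmono hIn (by positivity)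
      exact mul_le_mul_of_nonneg_left hX2 (by positivity)
    have h4 : ‖F p s‖ ^ 2 ≤ C1 ^ 2 * T ^ (2 * k1) * X ^ (4 * κ) *
        (X ^ ε1 * (1 / (2 * ε1))) * J := by
      have h6 : (X ^ (2 * κ)) ^ 2 = X ^ (4 * κ) := by
        rw [← Real.rpow_natCast, ← Real.rpow_mul hX0.le]
        congr 1
        push_cast
        ring
      calc ‖F p s‖ ^ 2 ≤ (C1 * T ^ k1 * X ^ (2 * κ) * I₁) ^ 2 :=
            pow_le_pow_left₀ (norm_nonneg _) hb' 2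
        _ = C1 ^ 2 * T ^ (2 * k1) * (X ^ (2 * κ)) ^ 2 * I₁ ^ 2 := by ring
        _ = C1 ^ 2 * T ^ (2 * k1) * X ^ (4 * κ) * I₁ ^ 2 := by rw [h6]
        _ ≤ C1 ^ 2 * T ^ (2 * k1) * X ^ (4 * κ) * (X ^ ε1 * (1 / (2 * ε1)) * J) := by
            exact mul_le_mul_of_nonneg_left h3 (by positivity)
        _ = _ := by ring
    calc ‖F p s‖ ^ 4 = ‖F p s‖ ^ 2 * ‖F p s‖ ^ 2 := by ring
      _ ≤ ‖F p s‖ ^ 2 * (C1 ^ 2 * T ^ (2 * k1) * X ^ (4 * κ) *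
          (X ^ ε1 * (1 / (2 * ε1))) * J) := mul_le_mul_of_nonneg_left h4 (sq_nonneg _)
      _ = C1 ^ 2 * T ^ (2 * k1) * X ^ (4 * κ) * (X ^ ε1 * (1 / (2 * ε1))) *
          (‖F p s‖ ^ 2 * J) := by ring
  obtain ⟨A, hA⟩ : ∃ A, A = C1 ^ 2 * T ^ (2 * k1) * X ^ (4 * κ) * (X ^ ε1 * (1 / (2 * ε1))) :=
    ⟨_, rfl⟩
  have hA0 : 0 ≤ A := by rw [hA]; positivity
  rw [← hA] at hfour
  have hsum : ∑ p ∈ S, ‖F p s‖ ^ 4 ≤
      A * ∫ x in Ioi (1 : ℝ), ∑ p ∈ S, ‖Sc (cf p.2) x‖ ^ 2 * ‖F p s‖ ^ 2 *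
          (x ^ (-2 : ℝ) * wB (B + 4) X x) := by
    rw [integral_finsetSum S (fun p hp => hint p hp), Finset.mul_sum]
    exact Finset.sum_le_sum fun p hp => hfour p hp
  have hw1 : IntegrableOn (fun x : ℝ => x ^ (-1 - ε1)) (Ioi 1) :=
    integrableOn_Ioi_rpow_of_lt (by linarith) one_pos
  have hG : ∫ x in Ioi (1 : ℝ), ∑ p ∈ S, ‖Sc (cf p.2) x‖ ^ 2 * ‖F p s‖ ^ 2 *
      (x ^ (-2 : ℝ) * wB (B + 4) X x) ≤
      C2 * T ^ k2 * X ^ (3 / 2 + ε1) * X ^ ε1 * (1 / ε1) := by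
    have h1 : ∫ x in Ioi (1 : ℝ), ∑ p ∈ S, ‖Sc (cf p.2) x‖ ^ 2 * ‖F p s‖ ^ 2 *
        (x ^ (-2 : ℝ) * wB (B + 4) X x) ≤
        ∫ x in Ioi (1 : ℝ), C2 * T ^ k2 * X ^ (3 / 2 + ε1) * X ^ ε1 * x ^ (-1 - ε1) := by
      refine setIntegral_mono_on
        (integrable_finsetSum _ fun p hp => hint p hp)
        (hw1.const_mul _) measurableSet_Ioi fun x hx => ?_
      have hx1 : (1 : ℝ) < x := hx
      have hx0 : (0 : ℝ) < x := by linarith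
      obtain ⟨Q, hQ⟩ : ∃ Q, Q = ∑ p ∈ S, ‖Sc (cf p.2) x‖ ^ 2 * ‖F p s‖ ^ 2 :=
        ⟨_, rfl⟩
      have hQ0 : 0 ≤ Q := by
        rw [hQ]
        exact Finset.sum_nonneg fun p _ => by positivity
      have e1 : ∑ p ∈ S, ‖Sc (cf p.2) x‖ ^ 2 * ‖F p s‖ ^ 2 *
          (x ^ (-2 : ℝ) * wB (B + 4) X x) = Q * (x ^ (-2 : ℝ) * wB (B + 4) X x) := by
        rw [hQ, Finset.sum_mul]
      rw [e1]
      have h2 : 0 ≤ x ^ (-2 : ℝ) := Real.rpow_nonneg hx0.le _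
      have h3 := FMS_wprod (B := B) hX hx0 hε1p hε1o
      have h4 := hM3 x hx1.le
      rw [← hQ] at h4
      have h5 : x ^ (-1 - ε1) = x ^ (1 + ε1) * (x ^ (-2 * ε1) * x ^ (-2 : ℝ)) := by
        rw [← Real.rpow_add hx0, ← Real.rpow_add hx0]
        congr 1
        ring
      rw [h5]
      have h6 : 0 ≤ X ^ ε1 * x ^ (-2 * ε1) * x ^ (-2 : ℝ) := by positivity
      calc Q * (x ^ (-2 : ℝ) * wB (B + 4) X x) ≤
          Q * (x ^ (-2 : ℝ) * (wB B X x * (X ^ ε1 * x ^ (-2 * ε1)))) :=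
            mul_le_mul_of_nonneg_left (mul_le_mul_of_nonneg_left h3 h2) hQ0
        _ = (Q * wB B X x) * (X ^ ε1 * x ^ (-2 * ε1) * x ^ (-2 : ℝ)) := by ring
        _ ≤ (C2 * T ^ k2 * X ^ (3 / 2 + ε1) * x ^ (1 + ε1)) *
            (X ^ ε1 * x ^ (-2 * ε1) * x ^ (-2 : ℝ)) := mul_le_mul_of_nonneg_right h4 h6
        _ = _ := by ring
    refine h1.trans (le_of_eq ?_)
    rw [integral_const_mul, integral_Ioi_rpow_of_lt (by linarith) zero_lt_one, Real.one_rpow,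
      show -1 - ε1 + 1 = -ε1 by ring, neg_div_neg_eq]
  refine hsum.trans ((mul_le_mul_of_nonneg_left hG hA0).trans ?_)
  have e3 : X ^ (4 * κ) * X ^ ε1 * X ^ (3 / 2 + ε1) * X ^ ε1 ≤ X ^ (3 / 2 + ε) := by
    rw [← Real.rpow_add hX0, ← Real.rpow_add hX0, ← Real.rpow_add hX0]
    refine Real.rpow_le_rpow_of_exponent_le hX ?_
    linarith
  calc A * (C2 * T ^ k2 * X ^ (3 / 2 + ε1) * X ^ ε1 * (1 / ε1))
      = C1 ^ 2 * (1 / (2 * ε1)) * C2 * (1 / ε1) * (T ^ (2 * k1) * T ^ k2) *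
          (X ^ (4 * κ) * X ^ ε1 * X ^ (3 / 2 + ε1) * X ^ ε1) := by
        rw [hA]
        ring
    _ ≤ C1 ^ 2 * (1 / (2 * ε1)) * C2 * (1 / ε1) * (T ^ (2 * k1) * T ^ k2) *
          X ^ (3 / 2 + ε) := mul_le_mul_of_nonneg_left e3 (by positivity)
    _ = _ := by rw [pow_add]

end Pool.Agent.H90.CMC
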